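import Pool.Agent.H32.Multi3

namespace Pool.Agent.Results.MP_a2af9e_co.Mult

open Polynomial Classical

/-- `des_D(σ)`: the number of arcs `u → v` of `D` with `σ u > σ v` -/
noncomputable def des {n : ℕ} (D : Fin n → Fin n → Prop) (σ : Equiv.Perm (Fin n)) : ℕ :=
  (Finset.univ.filter fun e : Fin n × Fin n => D e.1 e.2 ∧ σ e.2 < σ e.1).card

/-- the Eulerian polynomial `A_D(t)` -/
noncomputable def A {n : ℕ} (D : Fin n → Fin n → Prop) : ℂ[X] :=
  ∑ σ : Equiv.Perm (Fin n), X ^ des D σ

/-- `D` is an orientation of the complete multipartite graph whose parts are the fibres of `c` -/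
def IsOrientation {n k : ℕ} (c : Fin n → Fin k) (D : Fin n → Fin n → Prop) : Prop :=
  (∀ u v, D u v → ¬ D v u) ∧ ∀ u v, (D u v ∨ D v u) ↔ c u ≠ c v

/-- the number of parts of odd size -/
noncomputable def oddParts {n k : ℕ} (c : Fin n → Fin k) : ℕ :=
  (Finset.univ.filter fun i : Fin k => Odd (Finset.univ.filter fun u => c u = i).card).card

theorem result : ∀ (n k : ℕ) (c : Fin n → Fin k) (D : Fin n → Fin n → Prop),
    IsOrientation c D → (A D).rootMultiplicity (-1) = oddParts c / 2 := by
  intro n k c D h
  have := Pool.Agent.H32.Multi.main c (Finset.univ.filter fun e : Fin n × Fin n => D e.1 e.2)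
    (fun u v => by simpa using h.1 u v) (fun u v => by simpa using h.2 u v)
  unfold A des oddParts
  unfold Pool.Agent.H32.Multi.oddc at this
  simp only [Finset.filter_filter] at this
  convert this

end Pool.Agent.Results.MP_a2af9e_co.Mult
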